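import Pool.Agent.Lib.MP_678664_lc_h67.Core

/-!
Nonnegative factorizations of a matrix with a negative mean against the test function.
-/

set_option autoImplicit false

namespace Pool.Agent.Lib.MP_678664_lc_h67b

open Finset Pool.Agent.Lib.MP_678664_lc_h67

variable {κ α S : Type*} [Fintype κ] [DecidableEq κ] [Fintype α] [DecidableEq α]
  [Fintype S] [Nonempty S]

/-- A function which does not depend on the cells `(g, y g)`, `g ∉ I`, sees only the components
of the test function inside `I`. -/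
theorem reduce (h : Finset κ → (κ → S) → ℝ)
    (hmean : ∀ J, ∀ g ∈ J, ∀ z, ∑ s, h J (Function.update z g s) = 0)
    (F : (κ → α → S) → ℝ) (y : κ → α) (I : Finset κ)
    (hF : ∀ g ∉ I, ∀ x s, F (Function.update x g (Function.update (x g) (y g) s)) = F x) :
    ∑ x, F x * ∑ J, h J (fun v => x v (y v))
      = ∑ x, F x * ∑ J ∈ I.powerset, h J (fun v => x v (y v)) := by
  have hS : (0 : ℝ) < Fintype.card S := by exact_mod_cast Fintype.card_pos
  have key : ∀ J ∉ I.powerset, ∑ x : κ → α → S, F x * h J (fun v => x v (y v)) = 0 := by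
    intro J hJ
    rw [mem_powerset, not_subset] at hJ
    obtain ⟨g, hg, hgI⟩ := hJ
    -- resample the cell `(g, y g)`
    let upd : (κ → α → S) → S → (κ → α → S) := fun x s =>
      Function.update x g (Function.update (x g) (y g) s)
    let E : ((κ → α → S) × S) ≃ ((κ → α → S) × S) :=
      { toFun := fun p => (upd p.1 p.2, p.1 g (y g))
        invFun := fun p => (upd p.1 p.2, p.1 g (y g))
        left_inv := by rintro ⟨x, a⟩; simp [upd]
        right_inv := by rintro ⟨x, a⟩; simp [upd] }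
    have h1 : ∑ p : (κ → α → S) × S, F (E p).1 * h J (fun v => (E p).1 v (y v))
        = ∑ p : (κ → α → S) × S, F p.1 * h J (fun v => p.1 v (y v)) :=
      E.sum_comp (fun p => F p.1 * h J (fun v => p.1 v (y v)))
    have h2 : ∑ p : (κ → α → S) × S, F p.1 * h J (fun v => p.1 v (y v))
        = Fintype.card S * ∑ x : κ → α → S, F x * h J (fun v => x v (y v)) := by
      rw [Fintype.sum_prod_type, Finset.mul_sum]
      refine Finset.sum_congr rfl fun x _ => ?_
      simp only [Finset.sum_const, nsmul_eq_mul, Finset.card_univ]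
    have h3 : ∑ p : (κ → α → S) × S, F (E p).1 * h J (fun v => (E p).1 v (y v)) = 0 := by
      rw [Fintype.sum_prod_type]
      refine Finset.sum_eq_zero fun x _ => ?_
      have h4 : ∀ s : S, F (E (x, s)).1 * h J (fun v => (E (x, s)).1 v (y v))
          = F x * h J (Function.update (fun v => x v (y v)) g s) := by
        intro s
        show F (upd x s) * h J (fun v => upd x s v (y v)) = _
        rw [hF g hgI]
        congr 2
        funext v
        by_cases hv : v = g
        · subst hv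
          simp [upd]
        · simp [upd, hv]
      rw [Finset.sum_congr rfl fun s _ => h4 s, ← Finset.mul_sum, hmean J g hg, mul_zero]
    rw [h2] at h1
    rw [h3] at h1
    exact (mul_eq_zero.mp h1.symm).resolve_left hS.ne'
  have h5 : ∀ (T : Finset (Finset κ)), ∑ x : κ → α → S, F x * ∑ J ∈ T, h J (fun v => x v (y v))
      = ∑ J ∈ T, ∑ x : κ → α → S, F x * h J (fun v => x v (y v)) := by
    intro T
    rw [Finset.sum_comm]
    exact Finset.sum_congr rfl fun x _ => Finset.mul_sum _ _ _
  rw [h5, h5]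
  symm
  exact Finset.sum_subset (Finset.subset_univ _) fun J _ hJ => key J hJ

theorem core' (u : ℕ) (hu : u ≤ Fintype.card κ) (h : Finset κ → (κ → S) → ℝ) (B : ℝ)
    (hmean : ∀ J, ∀ g ∈ J, ∀ z, ∑ s, h J (Function.update z g s) = 0)
    (hB : ∀ (F : Finset (Finset κ)) z, |∑ J ∈ F, h J z| ≤ B)
    (hpos : ∀ I : Finset κ, I.card < u → ∀ z, 0 ≤ ∑ J ∈ I.powerset, h J z)
    [Nonempty α] (T L : ℝ) (hL : 1 ≤ L) (hT0 : 0 ≤ T)
    (t : ℕ) (ht : (1 - 1 / L) ^ t ≤ Real.exp (-T)) (htN : (t : ℝ) ≤ Fintype.card α)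
    (s : (κ → α → S) → (κ → α) → ℝ) (ε : ℝ) (hs1 : ∀ x y, s x y ≤ 1)
    (hneg : ∀ y, ∑ x, s x y * ∑ J, h J (fun v => x v (y v))
      ≤ -ε * Fintype.card (κ → α → S))
    (R : ℕ) (a : Fin R → (κ → α → S) → ℝ) (b : Fin R → (κ → α) → ℝ)
    (ha : ∀ i x, 0 ≤ a i x) (hb : ∀ i y, 0 ≤ b i y)
    (hfac : ∀ x y, ∑ i, a i x * b i y = s x y) :
    ε - Fintype.card κ * ((T + 2 * B ^ 2) / √L)
      ≤ R * (B * (t / Fintype.card α) ^ u + (u + 1) * (B * Real.exp (-T))) := by
  set δ : ℝ := Fintype.card κ * ((T + 2 * B ^ 2) / √L) with hδ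
  have hδ0 : 0 ≤ δ := by positivity
  have hB0 : 0 ≤ B := (abs_nonneg _).trans (hB ∅ (fun _ => Classical.arbitrary S))
  set E : ℝ := B * (t / Fintype.card α) ^ u + (u + 1) * (B * Real.exp (-T)) with hE
  have hE0 : 0 ≤ E := by positivity
  set Q : ℝ := (Fintype.card (κ → α → S) : ℝ) with hQ
  set C : ℝ := (Fintype.card (κ → α) : ℝ) with hC
  have hQ0 : 0 < Q := by rw [hQ]; exact_mod_cast Fintype.card_pos
  have hC0 : 0 < C := by rw [hC]; exact_mod_cast Fintype.card_pos
  -- each product is bounded below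
  have h1 : ∀ i, -(E * Q * C)
      ≤ ∑ x : κ → α → S, ∑ y : κ → α, a i x * b i y * ((∑ J, h J (fun v => x v (y v))) + δ) := by
    intro i
    obtain ⟨x0, hx0⟩ := Finite.exists_max (a i)
    obtain ⟨y0, hy0⟩ := Finite.exists_max (b i)
    have h2 := box_min₂ (a i) (b i) (fun x y => (∑ J, h J (fun v => x v (y v))) + δ)
      (a i x0) (b i y0) (E * Q * C) (ha i x0) (hb i y0) (ha i) hx0 (hb i) hy0
      (fun A D => rect u hu h B hmean hB hpos T L hL hT0 t ht htN A D)
    refine le_trans (neg_le_neg ?_) h2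
    rw [← mul_assoc]
    have h3 : a i x0 * b i y0 ≤ ∑ j, a j x0 * b j y0 :=
      Finset.single_le_sum (f := fun j => a j x0 * b j y0)
        (fun j _ => mul_nonneg (ha j x0) (hb j y0)) (Finset.mem_univ i)
    rw [hfac] at h3
    have h4 : a i x0 * b i y0 ≤ 1 := h3.trans (hs1 x0 y0)
    have h5 : 0 ≤ E * Q * C := by positivity
    calc a i x0 * b i y0 * (E * Q * C) ≤ 1 * (E * Q * C) := mul_le_mul_of_nonneg_right h4 h5
      _ = E * Q * C := one_mul _
  have h2 : -(R * (E * Q * C)) ≤ ∑ x : κ → α → S, ∑ y : κ → α,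
      s x y * ((∑ J, h J (fun v => x v (y v))) + δ) := by
    calc -(R * (E * Q * C)) = ∑ i : Fin R, -(E * Q * C) := by simp
      _ ≤ ∑ i : Fin R, ∑ x : κ → α → S, ∑ y : κ → α,
            a i x * b i y * ((∑ J, h J (fun v => x v (y v))) + δ) :=
          Finset.sum_le_sum fun i _ => h1 i
      _ = ∑ x : κ → α → S, ∑ y : κ → α,
            s x y * ((∑ J, h J (fun v => x v (y v))) + δ) := by
          rw [Finset.sum_comm]
          refine Finset.sum_congr rfl fun x _ => ?_
          rw [Finset.sum_comm]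
          refine Finset.sum_congr rfl fun y _ => ?_
          rw [← Finset.sum_mul, hfac]
  have h3 : ∑ x : κ → α → S, ∑ y : κ → α, s x y * ((∑ J, h J (fun v => x v (y v))) + δ)
      ≤ C * (-ε * Q + δ * Q) := by
    rw [Finset.sum_comm]
    calc ∑ y : κ → α, ∑ x : κ → α → S, s x y * ((∑ J, h J (fun v => x v (y v))) + δ)
        ≤ ∑ _y : κ → α, (-ε * Q + δ * Q) := by
          refine Finset.sum_le_sum fun y _ => ?_
          have h4 : ∑ x : κ → α → S, s x y * ((∑ J, h J (fun v => x v (y v))) + δ)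
              = ∑ x : κ → α → S, s x y * ∑ J, h J (fun v => x v (y v))
                + δ * ∑ x : κ → α → S, s x y := by
            rw [Finset.mul_sum, ← Finset.sum_add_distrib]
            exact Finset.sum_congr rfl fun x _ => by ring
          have h5 : ∑ x : κ → α → S, s x y ≤ Q := by
            calc ∑ x : κ → α → S, s x y ≤ ∑ x : κ → α → S, (1 : ℝ) :=
                  Finset.sum_le_sum fun x _ => hs1 x y
              _ = Q := by rw [Finset.sum_const, nsmul_eq_mul, mul_one, Finset.card_univ]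
          rw [h4]
          exact add_le_add (hneg y) (mul_le_mul_of_nonneg_left h5 hδ0)
      _ = C * (-ε * Q + δ * Q) := by rw [Finset.sum_const, nsmul_eq_mul, Finset.card_univ]
  have h6 := h2.trans h3
  have hQC : 0 < Q * C := by positivity
  have h7 : (Q * C) * (ε - δ) ≤ (Q * C) * (R * E) := by linarith
  exact le_of_mul_le_mul_left h7 hQC

end Pool.Agent.Lib.MP_678664_lc_h67b
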