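import Mathlib

/-!
Linear programs which tell graphs with a `k`-clique from graphs without a `u`-clique. The feasible
region is fixed, the input graph enters through the objective function.
-/

set_option autoImplicit false

namespace Pool.Agent.Lib.MP_678664_lc_h67b

/-- A family of linear programs with `r` inequalities which tells the graphs on `Fin n` with a
`k`-clique from the graphs on `Fin n` without a `u`-clique, with gap `ε`.

The feasible region is the set of the `y : Fin d → ℝ` with `a i ⬝ᵥ y ≤ b i` for the `r`
inequalities `i` and `c j ⬝ᵥ y = e j` for the `m` equations `j`; it does not depend on the input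
graph, and the numbers `d` of variables and `m` of equations are not restricted. Every graph `H` with
less than `u` non-isolated vertices has an affine function `w H ⬝ᵥ y + w0 H`, nonnegative on the
feasible region. The objective function for the input graph `G` is the sum of the functions of
all subgraphs `H` of `G` (for example, a nonnegative combination of the entries of the adjacency
matrix of `G`, with coefficients which are affine functions of `y`). If `G` has a `k`-clique, its
value is at least `1` somewhere in the feasible region; if `G` has no `u`-clique, its value is at most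
`1 - ε` everywhere in the feasible region. -/
structure CliqueLP (n k u : ℕ) (ε : ℝ) (r : ℕ) where
  /-- number of variables -/
  d : ℕ
  /-- number of equations -/
  m : ℕ
  /-- left sides of the inequalities -/
  a : Fin r → Fin d → ℝ
  /-- right sides of the inequalities -/
  b : Fin r → ℝ
  /-- left sides of the equations -/
  c : Fin m → Fin d → ℝ
  /-- right sides of the equations -/
  e : Fin m → ℝ
  /-- linear part of the function of a graph -/
  w : SimpleGraph (Fin n) → Fin d → ℝ
  /-- constant term of the function of a graph -/
  w0 : SimpleGraph (Fin n) → ℝ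
  /-- only graphs with less than `u` non-isolated vertices are used -/
  small : ∀ H, u ≤ H.support.ncard → w H = 0 ∧ w0 H = 0
  /-- the functions are nonnegative on the feasible region -/
  nonneg : ∀ H, ∀ y : Fin d → ℝ, (∀ i, a i ⬝ᵥ y ≤ b i) → (∀ j, c j ⬝ᵥ y = e j) →
    0 ≤ w H ⬝ᵥ y + w0 H
  /-- the value is at least `1` somewhere if there is a `k`-clique -/
  complete : ∀ G : SimpleGraph (Fin n), ¬ G.CliqueFree k → ∃ y : Fin d → ℝ,
    (∀ i, a i ⬝ᵥ y ≤ b i) ∧ (∀ j, c j ⬝ᵥ y = e j) ∧ 1 ≤ ∑ᶠ H ∈ Set.Iic G, (w H ⬝ᵥ y + w0 H)
  /-- the value is at most `1 - ε` if there is no `u`-clique -/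
  sound : ∀ G : SimpleGraph (Fin n), G.CliqueFree u → ∀ y : Fin d → ℝ, (∀ i, a i ⬝ᵥ y ≤ b i) →
    (∀ j, c j ⬝ᵥ y = e j) → ∑ᶠ H ∈ Set.Iic G, (w H ⬝ᵥ y + w0 H) ≤ 1 - ε

end Pool.Agent.Lib.MP_678664_lc_h67b
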