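import Pool.Agent.Lib.MP_678664_lc_h67.Graph
import Pool.Agent.Lib.MP_678664_lc_h67b.Core
import Pool.Agent.Lib.MP_678664_lc_h67b.Defs

/-!
The lower bound with parameters.
-/

set_option autoImplicit false

namespace Pool.Agent.Lib.MP_678664_lc_h67b

open Finset Pool.Agent.Lib.MP_678664_lc_h67

variable {n k N : ℕ} {S : Type}

/-- the indicator function of `H ≤ G_x` -/
noncomputable def sub (h : k * N ≤ n) (ok : Fin k → Fin k → S → S → Prop)
    (hsymm : ∀ v w s t, ok v w s t → ok w v t s) (H : SimpleGraph (Fin n))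
    (x : Fin k → Fin N → S) : ℝ :=
  open Classical in if H ≤ rowGraph h ok hsymm x then 1 else 0

lemma sub_nonneg' (h : k * N ≤ n) (ok : Fin k → Fin k → S → S → Prop)
    (hsymm : ∀ v w s t, ok v w s t → ok w v t s) (H : SimpleGraph (Fin n))
    (x : Fin k → Fin N → S) : 0 ≤ sub h ok hsymm H x := by
  unfold sub
  split_ifs
  · exact zero_le_one
  · exact le_rfl

/-- The indicator function of `H ≤ G_x` does not depend on the cells outside the support. -/
lemma sub_update (h : k * N ≤ n) (ok : Fin k → Fin k → S → S → Prop)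
    (hsymm : ∀ v w s t, ok v w s t → ok w v t s) (H : SimpleGraph (Fin n))
    (y : Fin k → Fin N) (g : Fin k) (hg : vert h g (y g) ∉ H.support)
    (x : Fin k → Fin N → S) (s : S) :
    sub h ok hsymm H (Function.update x g (Function.update (x g) (y g) s))
      = sub h ok hsymm H x := by
  have key : ∀ (v : Fin k) (i : Fin N), vert h v i ∈ H.support →
      Function.update x g (Function.update (x g) (y g) s) v i = x v i := by
    intro v i hv
    by_cases hvg : v = g
    · subst hvg
      rw [Function.update_self]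
      by_cases hi : i = y v
      · subst hi
        exact absurd hv hg
      · rw [Function.update_of_ne hi]
    · rw [Function.update_of_ne hvg]
  have h1 : (H ≤ rowGraph h ok hsymm (Function.update x g (Function.update (x g) (y g) s)))
      ↔ H ≤ rowGraph h ok hsymm x := by
    constructor
    · intro hle a b hab
      obtain ⟨v, w, i, j, rfl, rfl, hvw, hok⟩ := hle hab
      rw [rowGraph_adj]
      refine ⟨hvw, ?_⟩
      rwa [key v i ⟨_, hab⟩, key w j ⟨_, hab.symm⟩] at hok
    · intro hle a b hab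
      obtain ⟨v, w, i, j, rfl, rfl, hvw, hok⟩ := hle hab
      rw [rowGraph_adj]
      refine ⟨hvw, ?_⟩
      rwa [key v i ⟨_, hab⟩, key w j ⟨_, hab.symm⟩]
  unfold sub
  by_cases h2 : H ≤ rowGraph h ok hsymm x
  · rw [if_pos h2, if_pos (h1.2 h2)]
  · rw [if_neg h2, if_neg (fun h3 => h2 (h1.1 h3))]

/-- the complete graph on a vertex set -/
def clq (A : Finset (Fin n)) : SimpleGraph (Fin n) where
  Adj a b := a ∈ A ∧ b ∈ A ∧ a ≠ b
  symm := ⟨fun _ _ h => ⟨h.2.1, h.1, h.2.2.symm⟩⟩
  loopless := ⟨fun _ h => h.2.2 rfl⟩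

lemma clq_not_cliqueFree (A : Finset (Fin n)) (k : ℕ) (hA : A.card = k) :
    ¬ (clq A).CliqueFree k := by
  intro hf
  refine hf A ⟨?_, hA⟩
  intro a ha b hb hab
  exact ⟨ha, hb, hab⟩

/-- If `H` is a subgraph of the clique of a column, it is a subgraph of `G_x` as soon as the density
does not vanish. -/
lemma sub_mul_rho (h : k * N ≤ n) (ok : Fin k → Fin k → S → S → Prop)
    (hsymm : ∀ v w s t, ok v w s t → ok w v t s) (H : SimpleGraph (Fin n))
    (y : Fin k → Fin N) (hH : H ≤ clq (colSet h y)) (p : ℝ) (I : Finset (Fin k))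
    (hI : ∀ v, v ∈ I ↔ vert h v (y v) ∈ H.support) (x : Fin k → Fin N → S) :
    sub h ok hsymm H x * rho ok p I (fun v => x v (y v)) = rho ok p I (fun v => x v (y v)) := by
  by_cases hc : Cons ok I (fun v => x v (y v))
  · have hle : H ≤ rowGraph h ok hsymm x := by
      intro a b hab
      obtain ⟨ha, hb, hne⟩ := hH hab
      simp only [colSet, Finset.mem_image, Finset.mem_univ, true_and] at ha hb
      obtain ⟨v, rfl⟩ := ha
      obtain ⟨w, rfl⟩ := hb
      have hvw : v ≠ w := by
        rintro rfl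
        exact hne rfl
      rw [rowGraph_adj]
      exact ⟨hvw, hc v ((hI v).2 ⟨_, hab⟩) w ((hI w).2 ⟨_, hab.symm⟩) hvw⟩
    unfold sub
    rw [if_pos hle, one_mul]
  · have : rho ok p I (fun v => x v (y v)) = 0 := by
      unfold rho
      rw [if_neg hc]
    rw [this, mul_zero]

theorem lower_param (k u : ℕ) (hu : 3 ≤ u) (huk : u ≤ k) :
    ∃ B : ℝ, 1 ≤ B ∧ ∀ (n N r : ℕ) (ε : ℝ), 0 < N → k * N ≤ n → 0 ≤ ε →
      Nonempty (CliqueLP n k u ε r) → ∀ (T L : ℝ) (t : ℕ), 1 ≤ L → 0 ≤ T →
      (1 - 1 / L) ^ t ≤ Real.exp (-T) → (t : ℝ) ≤ N →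
      ε - k * ((T + 2 * B ^ 2) / √L)
        ≤ (r + 1) * (B * (t / N) ^ u + (u + 1) * (B * Real.exp (-T))) := by
  classical
  obtain ⟨S, hS1, hS2, ok, q, hq, hsymm, hext, hno⟩ := exists_design k u hu
  obtain ⟨B0, hB0⟩ := exists_bound (κ := Fin k) ok q u
  refine ⟨max B0 1, le_max_right _ _, ?_⟩
  have hB : ∀ (F : Finset (Finset (Fin k))) z, |∑ J ∈ F, pureComp ok q u J z| ≤ max B0 1 :=
    fun F z => (hB0 F z).trans (le_max_left _ _)
  set B := max B0 1
  intro n N r ε hN hkn hε hF T L t hL hT ht htN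
  obtain ⟨F⟩ := hF
  have : Nonempty (Fin N) := ⟨⟨0, hN⟩⟩
  let coef : SimpleGraph (Fin n) → (Fin F.d → ℝ) → ℝ := fun H y => F.w H ⬝ᵥ y + F.w0 H
  have hval : ∀ (G : SimpleGraph (Fin n)) (y : Fin F.d → ℝ),
      ∑ᶠ H ∈ Set.Iic G, (F.w H ⬝ᵥ y + F.w0 H) = ∑ H, if H ≤ G then coef H y else 0 := by
    intro G y
    rw [finsum_mem_eq_finite_toFinset_sum _ (Set.toFinite _), ← Finset.sum_filter]
    refine Finset.sum_congr ?_ fun _ _ => rfl
    ext H
    simp
  -- the points of the columns
  have hpt : ∀ y : Fin k → Fin N, ∃ z : Fin F.d → ℝ, (∀ i, F.a i ⬝ᵥ z ≤ F.b i) ∧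
      (∀ j, F.c j ⬝ᵥ z = F.e j) ∧
      1 ≤ ∑ᶠ H ∈ Set.Iic (clq (colSet hkn y)), (F.w H ⬝ᵥ z + F.w0 H) := fun y =>
    F.complete _ (clq_not_cliqueFree _ k (card_colSet hkn y))
  choose pt hpt1 hpt2 hpt3 using hpt
  -- the factorization
  have hfk : ∀ x : Fin k → Fin N → S, ∃ l : Fin (r + 1) → ℝ, (∀ i, 0 ≤ l i) ∧
      ∀ y : Fin F.d → ℝ, (∀ j, F.c j ⬝ᵥ y = F.e j) →
        (1 - ε) - (∑ H, if H ≤ rowGraph hkn ok hsymm x then coef H y else 0)
          = l 0 + ∑ i : Fin r, l i.succ * (F.b i - F.a i ⬝ᵥ y) := by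
    intro x
    have hlin : ∀ y : Fin F.d → ℝ, (∑ H, if H ≤ rowGraph hkn ok hsymm x then F.w H else 0) ⬝ᵥ y
        + (∑ H, if H ≤ rowGraph hkn ok hsymm x then F.w0 H else 0)
        = ∑ H, if H ≤ rowGraph hkn ok hsymm x then coef H y else 0 := by
      intro y
      rw [sum_dotProduct, ← Finset.sum_add_distrib]
      refine Finset.sum_congr rfl fun H _ => ?_
      split_ifs
      · rfl
      · rw [zero_dotProduct, add_zero]
    have y0 : Fin k → Fin N := fun _ => ⟨0, hN⟩
    obtain ⟨l, hl0, hl⟩ := farkas_affine F.a F.b F.c F.e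
      (∑ H, if H ≤ rowGraph hkn ok hsymm x then F.w H else 0)
      (∑ H, if H ≤ rowGraph hkn ok hsymm x then F.w0 H else 0) (1 - ε) (pt y0) (hpt1 y0) (hpt2 y0)
      (fun y h1 h2 => by
        rw [hlin, ← hval]
        exact F.sound _ (rowGraph_cliqueFree hkn ok hsymm x u hu hno) y h1 h2)
    refine ⟨l, hl0, fun y hy => ?_⟩
    rw [← hlin]
    exact hl y hy
  choose l hl0 hl using hfk
  have hcoef : ∀ H y, 0 ≤ coef H (pt y) := fun H y => F.nonneg H (pt y) (hpt1 y) (hpt2 y)
  let W : (Fin k → S) → ℝ := fun z => ∑ J, pureComp ok q u J z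
  set Q : ℝ := (Fintype.card (Fin k → Fin N → S) : ℝ) with hQ
  have hWsum : ∀ y : Fin k → Fin N, ∑ x : Fin k → Fin N → S, W (fun v => x v (y v)) = Q := by
    intro y
    have h1 := uniform_pattern (α := Fin N) (fun z => ∑ J, pureComp ok q u J z) y
    rw [sum_test ok hsymm q u hext (by omega)] at h1
    have hZ : (0 : ℝ) < Fintype.card (Fin k → S) := by exact_mod_cast Fintype.card_pos
    rw [mul_comm] at h1
    exact mul_right_cancel₀ hZ.ne' h1
  -- the correlations of the test function with the indicator functions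
  have htau : ∀ (H : SimpleGraph (Fin n)) (y : Fin k → Fin N), H.support.ncard < u →
      0 ≤ ∑ x, sub hkn ok hsymm H x * W (fun v => x v (y v)) ∧
      (H ≤ clq (colSet hkn y) → ∑ x, sub hkn ok hsymm H x * W (fun v => x v (y v)) = Q) := by
    intro H y hH
    let I : Finset (Fin k) := univ.filter fun v => vert hkn v (y v) ∈ H.support
    have hI : ∀ v, v ∈ I ↔ vert hkn v (y v) ∈ H.support := fun v => by simp [I]
    have hIu : I.card < u := by
      refine lt_of_le_of_lt ?_ hH
      rw [← Set.ncard_coe_finset, ← Set.ncard_image_of_injective _ (colSet_inj hkn y)]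
      refine Set.ncard_le_ncard ?_ (Set.toFinite _)
      rintro _ ⟨v, hv, rfl⟩
      exact (hI v).1 hv
    have h1 := reduce (pureComp ok q u) (fun J g hg z => pure_mean ok hsymm q u hext J g hg z)
      (sub hkn ok hsymm H) y I
      (fun g hg x s => sub_update hkn ok hsymm H y g (fun h' => hg ((hI g).2 h')) x s)
    have h2 := reduce (pureComp ok q u) (fun J g hg z => pure_mean ok hsymm q u hext J g hg z)
      (fun _ : Fin k → Fin N → S => (1 : ℝ)) y I (fun _ _ _ _ => rfl)
    simp only [sum_pure ok q u I hIu, one_mul] at h1 h2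
    refine ⟨?_, fun hle => ?_⟩
    · rw [h1]
      exact Finset.sum_nonneg fun x _ => mul_nonneg (sub_nonneg' _ _ _ _ _) (rho_nonneg ok q hq _ _)
    · rw [h1, Finset.sum_congr rfl fun x _ => sub_mul_rho hkn ok hsymm H y hle q I hI x, ← h2]
      exact hWsum y
  have hmain := core' (κ := Fin k) (α := Fin N) u (by simpa using huk) (pureComp ok q u) B
    (fun J g hg z => pure_mean ok hsymm q u hext J g hg z) hB
    (fun I hI z => by rw [sum_pure ok q u I hI]; exact rho_nonneg ok q hq I z)
    T L hL hT t ht (by simpa using htN)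
    (fun x y => (1 - ε) - (∑ H, if H ≤ rowGraph hkn ok hsymm x then coef H (pt y) else 0)) ε
    (fun x y => by
      have : 0 ≤ ∑ H, if H ≤ rowGraph hkn ok hsymm x then coef H (pt y) else 0 :=
        Finset.sum_nonneg fun H _ => by
          split_ifs
          · exact hcoef H y
          · exact le_rfl
      linarith)
    (fun y => by
      have h1 : ∀ x : Fin k → Fin N → S,
          ((1 - ε) - (∑ H, if H ≤ rowGraph hkn ok hsymm x then coef H (pt y) else 0))
            * ∑ J, pureComp ok q u J (fun v => x v (y v))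
          = (1 - ε) * W (fun v => x v (y v))
            - ∑ H, coef H (pt y) * (sub hkn ok hsymm H x * W (fun v => x v (y v))) := by
        intro x
        rw [sub_mul, Finset.sum_mul]
        congr 1
        refine Finset.sum_congr rfl fun H _ => ?_
        unfold sub
        split_ifs
        · rw [one_mul]
        · simp only [zero_mul, mul_zero]
      rw [Finset.sum_congr rfl fun x _ => h1 x, Finset.sum_sub_distrib, ← Finset.mul_sum,
        hWsum y, Finset.sum_comm]
      have h2 : ∀ H : SimpleGraph (Fin n),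
          (if H ≤ clq (colSet hkn y) then coef H (pt y) else 0) * Q
          ≤ ∑ x : Fin k → Fin N → S,
            coef H (pt y) * (sub hkn ok hsymm H x * W (fun v => x v (y v))) := by
        intro H
        rw [← Finset.mul_sum]
        by_cases hH : H.support.ncard < u
        · obtain ⟨h3, h4⟩ := htau H y hH
          split_ifs with hle
          · rw [h4 hle]
          · rw [zero_mul]
            exact mul_nonneg (hcoef H y) h3
        · have h5 : coef H (pt y) = 0 := by
            obtain ⟨h6, h7⟩ := F.small H (not_lt.1 hH)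
            show F.w H ⬝ᵥ pt y + F.w0 H = 0
            rw [h6, h7, zero_dotProduct, add_zero]
          rw [h5]
          simp
      have h8 : Q ≤ ∑ H, ∑ x : Fin k → Fin N → S,
            coef H (pt y) * (sub hkn ok hsymm H x * W (fun v => x v (y v))) := by
        refine le_trans ?_ (Finset.sum_le_sum fun H _ => h2 H)
        rw [← Finset.sum_mul]
        have h9 := hpt3 y
        rw [hval] at h9
        have hQ0 : 0 ≤ Q := Nat.cast_nonneg _
        nlinarith
      linarith)
    (r + 1)
    (fun i x => l x i)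
    (fun i y => Fin.cases (motive := fun _ => ℝ) 1 (fun i' => F.b i' - F.a i' ⬝ᵥ pt y) i)
    (fun i x => hl0 x i)
    (fun i y => by
      refine Fin.cases ?_ ?_ i
      · simp
      · intro i'
        simp only [Fin.cases_succ]
        linarith [hpt1 y i'])
    (fun x y => by
      rw [Fin.sum_univ_succ]
      simp only [Fin.cases_zero, Fin.cases_succ, mul_one]
      rw [← hl x (pt y) (hpt2 y)])
  simpa using hmain

end Pool.Agent.Lib.MP_678664_lc_h67b
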