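import Pool.Agent.Lib.MP_678664_lc_h67b.Graph

/-!
A linear program with `n.choose u` inequalities.
-/

set_option autoImplicit false

namespace Pool.Agent.Lib.MP_678664_lc_h67b

open Finset

variable {n : ℕ}

lemma support_clq (T : Finset (Fin n)) : (clq T).support ⊆ (T : Set (Fin n)) := by
  rintro a ⟨b, hab⟩
  exact hab.1

open Classical in
/-- number of the subsets of size `u - 1` of `U` which are cliques of `G` -/
noncomputable def cnt (u : ℕ) (G : SimpleGraph (Fin n)) (U : Finset (Fin n)) : ℕ :=
  ((U.powersetCard (u - 1)).filter fun T => clq T ≤ G).card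

lemma cnt_le_two (u : ℕ) (G : SimpleGraph (Fin n)) (hG : G.CliqueFree u)
    (U : Finset (Fin n)) (hU : U.card = u) : cnt u G U ≤ 2 := by
  classical
  have h1 : ¬ G.IsClique U := fun h => hG U ⟨h, hU⟩
  rw [SimpleGraph.isClique_iff, Set.Pairwise] at h1
  push Not at h1
  obtain ⟨a, ha, b, hb, hab, hnadj⟩ := h1
  unfold cnt
  have h2 : ((U.powersetCard (u - 1)).filter fun T => clq T ≤ G) ⊆ {U.erase a, U.erase b} := by
    intro T hT
    obtain ⟨hT1, hT2⟩ := Finset.mem_filter.1 hT
    obtain ⟨hTU, hTc⟩ := Finset.mem_powersetCard.1 hT1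
    have h3 : a ∉ T ∨ b ∉ T := by
      by_contra hcon
      push Not at hcon
      exact hnadj (hT2 ⟨hcon.1, hcon.2, hab⟩)
    rw [Finset.mem_insert, Finset.mem_singleton]
    rcases h3 with h3 | h3
    · left
      apply Finset.eq_of_subset_of_card_le
      · intro x hx
        exact Finset.mem_erase.2 ⟨fun h => h3 (h ▸ hx), hTU hx⟩
      · rw [Finset.card_erase_of_mem ha, hU, hTc]
    · right
      apply Finset.eq_of_subset_of_card_le
      · intro x hx
        exact Finset.mem_erase.2 ⟨fun h => h3 (h ▸ hx), hTU hx⟩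
      · rw [Finset.card_erase_of_mem hb, hU, hTc]
  exact (Finset.card_le_card h2).trans Finset.card_le_two

lemma cnt_eq (u : ℕ) (hu : 1 ≤ u) (G : SimpleGraph (Fin n)) (S U : Finset (Fin n))
    (hS : G.IsClique S) (hUS : U ⊆ S) (hU : U.card = u) : cnt u G U = u := by
  classical
  unfold cnt
  rw [Finset.filter_true_of_mem]
  · rw [Finset.card_powersetCard, hU]
    obtain ⟨m, rfl⟩ : ∃ m, u = m + 1 := ⟨u - 1, by omega⟩
    rw [Nat.add_sub_cancel, Nat.choose_succ_self_right]
  · intro T hT a b hab
    obtain ⟨ha, hb, hne⟩ := hab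
    have hTU := (Finset.mem_powersetCard.1 hT).1
    exact hS (hUS (hTU ha)) (hUS (hTU hb)) hne

theorem upper (n k u : ℕ) (hu : 3 ≤ u) (huk : u ≤ k) :
    Nonempty (CliqueLP n k u (1 - 2 / u) (n.choose u)) := by
  classical
  have hcard : Fintype.card {T : Finset (Fin n) // T.card = u} = n.choose u := by
    rw [Fintype.card_finset_len, Fintype.card_fin]
  let E : Fin (n.choose u) ≃ {T : Finset (Fin n) // T.card = u} :=
    (Fintype.equivFinOfCardEq hcard).symm
  have hupos : (0 : ℝ) < u := by
    have : 0 < u := by omega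
    exact_mod_cast this
  let w : SimpleGraph (Fin n) → Fin (n.choose u) → ℝ := fun H j =>
    ((((E j : Finset (Fin n)).powersetCard (u - 1)).filter fun T => clq T = H).card : ℝ) / u
  have hval : ∀ (G : SimpleGraph (Fin n)) (y : Fin (n.choose u) → ℝ),
      ∑ᶠ H ∈ Set.Iic G, (w H ⬝ᵥ y + (0 : SimpleGraph (Fin n) → ℝ) H)
        = ∑ j, (cnt u G (E j) : ℝ) / u * y j := by
    intro G y
    rw [finsum_mem_eq_finite_toFinset_sum _ (Set.toFinite _)]
    simp only [Pi.zero_apply, add_zero, dotProduct]
    rw [Finset.sum_comm]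
    refine Finset.sum_congr rfl fun j _ => ?_
    rw [← Finset.sum_mul]
    congr 1
    simp only [w]
    rw [← Finset.sum_div]
    congr 1
    rw [← Nat.cast_sum]
    congr 1
    unfold cnt
    rw [Finset.card_eq_sum_card_fiberwise (f := clq) (t := (Set.toFinite (Set.Iic G)).toFinset)]
    · refine Finset.sum_congr rfl fun H hH => ?_
      congr 1
      ext T
      simp only [Finset.mem_filter]
      constructor
      · rintro ⟨h1, rfl⟩
        refine ⟨⟨h1, ?_⟩, rfl⟩
        simpa using hH
      · rintro ⟨⟨h1, -⟩, h2⟩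
        exact ⟨h1, h2⟩
    · intro T hT
      have := (Finset.mem_filter.1 (Finset.mem_coe.1 hT)).2
      simpa using this
  refine ⟨{
    d := n.choose u
    m := 1
    a := fun i => - Pi.single i 1
    b := fun _ => 0
    c := fun _ _ => 1
    e := fun _ => 1
    w := w
    w0 := 0
    small := ?_
    nonneg := ?_
    complete := ?_
    sound := ?_ }⟩
  · intro H hH
    refine ⟨?_, rfl⟩
    funext j
    show ((((E j : Finset (Fin n)).powersetCard (u - 1)).filter fun T => clq T = H).card : ℝ) / u
      = 0
    have h1 : (((E j : Finset (Fin n)).powersetCard (u - 1)).filter fun T => clq T = H) = ∅ := by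
      rw [Finset.filter_eq_empty_iff]
      rintro T hT rfl
      have h2 := Set.ncard_le_ncard (support_clq T) (Set.toFinite _)
      rw [Set.ncard_coe_finset, (Finset.mem_powersetCard.1 hT).2] at h2
      omega
    rw [h1, Finset.card_empty, Nat.cast_zero, zero_div]
  · intro H y hy _
    have hy0 : ∀ j, 0 ≤ y j := by
      intro j
      have := hy j
      rw [neg_dotProduct, single_one_dotProduct] at this
      linarith
    rw [Pi.zero_apply, add_zero]
    exact Finset.sum_nonneg fun j _ => mul_nonneg (by simp only [w]; positivity) (hy0 j)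
  · intro G hG
    unfold SimpleGraph.CliqueFree at hG
    push Not at hG
    obtain ⟨S, hS⟩ := hG
    have hSc : S.card = k := hS.card_eq
    have hCpos : (0 : ℝ) < (k.choose u : ℝ) := by exact_mod_cast Nat.choose_pos huk
    let y : Fin (n.choose u) → ℝ := fun j =>
      if ((E j : Finset (Fin n)) ⊆ S) then 1 / (k.choose u : ℝ) else 0
    have hysum : ∑ j, y j = 1 := by
      show ∑ j, (if ((E j : Finset (Fin n)) ⊆ S) then 1 / (k.choose u : ℝ) else 0) = 1
      rw [E.sum_comp (fun T : {T : Finset (Fin n) // T.card = u} =>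
        if ((T : Finset (Fin n)) ⊆ S) then 1 / (k.choose u : ℝ) else 0)]
      rw [← Finset.sum_filter, Finset.sum_const, nsmul_eq_mul]
      have h1 : (Finset.univ.filter fun T : {T : Finset (Fin n) // T.card = u} =>
          (T : Finset (Fin n)) ⊆ S).card = k.choose u := by
        rw [← hSc, ← Finset.card_powersetCard]
        refine Finset.card_bij (fun T _ => (T : Finset (Fin n))) ?_ ?_ ?_
        · intro T hT
          exact Finset.mem_powersetCard.2 ⟨(Finset.mem_filter.1 hT).2, T.2⟩
        · intro T _ T' _ h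
          exact Subtype.ext h
        · intro T hT
          obtain ⟨h2, h3⟩ := Finset.mem_powersetCard.1 hT
          exact ⟨⟨T, h3⟩, Finset.mem_filter.2 ⟨Finset.mem_univ _, h2⟩, rfl⟩
      rw [h1]
      field_simp
    refine ⟨y, ?_, ?_, ?_⟩
    · intro i
      rw [neg_dotProduct, single_one_dotProduct]
      have : 0 ≤ y i := by
        show (0 : ℝ) ≤ if ((E i : Finset (Fin n)) ⊆ S) then 1 / (k.choose u : ℝ) else 0
        split_ifs
        · positivity
        · exact le_rfl
      linarith
    · intro _
      show ∑ j, 1 * y j = 1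
      simp only [one_mul]
      exact hysum
    · rw [hval]
      refine le_of_eq ?_
      rw [← hysum]
      refine Finset.sum_congr rfl fun j _ => ?_
      by_cases hj : (E j : Finset (Fin n)) ⊆ S
      · rw [cnt_eq u (by omega) G S _ hS.isClique hj (E j).2, div_self hupos.ne', one_mul]
      · have : y j = 0 := if_neg hj
        rw [this, mul_zero]
  · intro G hG y hy hy1
    have hy0 : ∀ j, 0 ≤ y j := by
      intro j
      have := hy j
      rw [neg_dotProduct, single_one_dotProduct] at this
      linarith
    have hys : ∑ j, y j = 1 := by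
      have := hy1 0
      simpa [dotProduct] using this
    rw [hval]
    calc ∑ j, (cnt u G (E j) : ℝ) / u * y j ≤ ∑ j, 2 / (u : ℝ) * y j := by
          refine Finset.sum_le_sum fun j _ => mul_le_mul_of_nonneg_right ?_ (hy0 j)
          apply div_le_div_of_nonneg_right _ hupos.le
          exact_mod_cast cnt_le_two u G hG _ (E j).2
      _ = 1 - (1 - 2 / u) := by rw [← Finset.mul_sum, hys]; ring

end Pool.Agent.Lib.MP_678664_lc_h67b
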