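import Pool.Agent.Lib.MP_678664_lc_h67b.Asym
import Pool.Agent.Lib.MP_678664_lc_h67b.Upper

/-!
The final statement on linear programs for the clique problem.
-/

set_option autoImplicit false

namespace Pool.Agent.Lib.MP_678664_lc_h67b

open Filter

theorem main :
    ∀ k u : ℕ, 3 ≤ u → u ≤ k →
      (∃ c : ℝ, 0 < c ∧ ∀ (n r : ℕ) (ε : ℝ), 2 ≤ n → 0 < ε → ε ≤ 1 →
        Nonempty (CliqueLP n k u ε r) →
          c * ε * (ε ^ 2 * n / Real.log n ^ 3) ^ u ≤ r + 1) ∧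
      (∀ n : ℕ, Nonempty (CliqueLP n k u (1 - 2 / u) (n.choose u))) ∧
      ∀ ε F γ : ℝ, 0 < ε → ε ≤ 1 → γ < u → ∀ᶠ n : ℕ in atTop, ∀ r : ℕ,
        Nonempty (CliqueLP n k u ε r) → F * (n : ℝ) ^ γ < r :=
  fun k u hu huk => ⟨lower_main k u hu huk, fun n => upper n k u hu huk,
    fun ε F γ hε hε1 hγ => lower_exponent k u hu huk ε hε hε1 F γ hγ⟩

end Pool.Agent.Lib.MP_678664_lc_h67b
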